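import Pool.Agent.Helper3.TD.Gir
import Pool.Agent.Helper3.FE.Free

/-!
# Free edges of invariant sets of triangles
-/

set_option autoImplicit false

namespace Pool.Agent.Helper3.TD

open Relation Pool.Agent.Helper3.FJ Pool.Agent.Helper3.FJ.Cpx Pool.Agent.Helper9.TD
  Pool.Agent.Helper3.LT Pool.Agent.Helper3.FE

section

variable {S V : Type} {M : CoxeterMatrix S} {X : Cpx V} {τ : V → Finset S} {N : ℕ} {R : Type}
  [Group R] [MulAction R V]

/-- The vertices of a triangle in the order of their types. -/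
theorem tri_order (hT : TK M X τ) {a b c : V} (h : X.tri a b c) :
    ∃ x y z, τ x = ∅ ∧ (τ y).card = 1 ∧ (τ z).card = 2 ∧ τ y ⊂ τ z ∧
      ((x, y, z) = (a, b, c) ∨ (x, y, z) = (a, c, b) ∨ (x, y, z) = (b, a, c) ∨
        (x, y, z) = (b, c, a) ∨ (x, y, z) = (c, a, b) ∨ (x, y, z) = (c, b, a)) := by
  have key : ∀ x y z : V, τ x ⊂ τ y → τ y ⊂ τ z → τ x = ∅ ∧ (τ y).card = 1 ∧ (τ z).card = 2 := by
    intro x y z h1 h2
    have e1 := Finset.card_lt_card h1
    have e2 := Finset.card_lt_card h2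
    have e3 := hT.two z
    exact ⟨Finset.card_eq_zero.1 (by omega), by omega, by omega⟩
  have h1 := hT.sub _ _ (X.tri_adj _ _ _ h)
  have h2 := hT.sub _ _ (adj2 h)
  have h3 := hT.sub _ _ (adj3 h)
  rcases h1 with h1 | h1 <;> rcases h2 with h2 | h2 <;> rcases h3 with h3 | h3
  · exact (((h1.trans h2).trans h3).ne rfl).elim
  · obtain ⟨e1, e2, e3⟩ := key _ _ _ h1 h2
    exact ⟨a, b, c, e1, e2, e3, h2, by simp⟩
  · obtain ⟨e1, e2, e3⟩ := key _ _ _ h3 h1
    exact ⟨c, a, b, e1, e2, e3, h1, by simp⟩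
  · obtain ⟨e1, e2, e3⟩ := key _ _ _ h3 h2
    exact ⟨a, c, b, e1, e2, e3, h2, by simp⟩
  · obtain ⟨e1, e2, e3⟩ := key _ _ _ h2 h3
    exact ⟨b, c, a, e1, e2, e3, h3, by simp⟩
  · obtain ⟨e1, e2, e3⟩ := key _ _ _ h1 h3
    exact ⟨b, a, c, e1, e2, e3, h3, by simp⟩
  · obtain ⟨e1, e2, e3⟩ := key _ _ _ h2 h1
    exact ⟨c, b, a, e1, e2, e3, h1, by simp⟩
  · exact (((h1.trans h3).trans h2).ne rfl).elim

theorem card_one_eq {J : Finset S} (h : J.card = 1) : ∃ s, J = {s} := Finset.card_eq_one.1 h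

section

variable (hN : NiceT M X τ N R) {T : V → V → V → Prop}

/-- The kites of a set of triangles. -/
def KK (T : V → V → V → Prop) : Set ({v : QV R V // tq hN.toActsT v = ∅} × S × S) :=
  {k | ∃ c p q r, (qv c : QV R V) = k.1.1 ∧ T c p r ∧ T c q r ∧ τ c = ∅ ∧ τ p = {k.2.1} ∧
    τ q = {k.2.2} ∧ k.2.1 ≠ k.2.2 ∧ (τ r).card = 2}

variable (h1 : ∀ a b c, T a b c → X.tri a b c) (h2 : ∀ a b c, T a b c → T b c a)
  (h3 : ∀ a b c, T a b c → T b a c)
  (h4 : ∀ (g : R) a b c, T a b c → T (g • a) (g • b) (g • c))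
  (h5 : ∃ S : Set (V × V × V), S.Finite ∧ ∀ a b c, T a b c → ∃ g : R, (g • a, g • b, g • c) ∈ S)
  (hNF : ∀ a b c, T a b c → ∃ d, T a b d ∧ d ≠ c)

include hN h1 h2 h3 hNF in
/-- Kites without free edges. -/
theorem kite_of {c p r : V} (h : T c p r) (hc : τ c = ∅) (hp : (τ p).card = 1)
    (hr : (τ r).card = 2) : ∃ q, T c q r ∧ τ q ≠ τ p ∧ (τ q).card = 1 := by
  have hT := hN.tk
  obtain ⟨q, h6, h7⟩ := hNF c r p (h2 _ _ _ (h3 _ _ _ h))
  have h8 : T c q r := h2 _ _ _ (h3 _ _ _ h6)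
  have t1 := h1 _ _ _ h8
  have a1 := up_of_ch hT hc (X.tri_adj _ _ _ t1)
  have a2 := hT.sub _ _ (adj2 t1)
  have b1 := Finset.card_lt_card a1
  have b2 := hT.two q
  have b3 : (τ q).card = 1 := by
    rcases a2 with a2 | a2
    · have := Finset.card_lt_card a2
      omega
    · have := Finset.card_lt_card a2
      omega
  refine ⟨q, h8, fun h9 => h7 ?_, b3⟩
  exact hT.un c q p (X.tri_adj _ _ _ t1) (X.tri_adj _ _ _ (h1 _ _ _ h)) a1 h9

include hN h1 in
theorem res_type [DecidableEq S] {c p q r : V} {s t : S} (hp : T c p r) (hq : T c q r)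
    (hp' : τ p = {s}) (hq' : τ q = {t}) (hst : s ≠ t) (hr : (τ r).card = 2) : τ r = {s, t} := by
  have hT := hN.tk
  have key : ∀ {x : V} {u : S}, T c x r → τ x = {u} → u ∈ τ r := by
    intro x u hx hu
    rcases hT.sub _ _ (adj2 (h1 _ _ _ hx)) with h | h
    · exact h.1 (by rw [hu]; exact Finset.mem_singleton_self u)
    · have := Finset.card_lt_card h
      rw [hu, hr, Finset.card_singleton] at this
      omega
  refine (Finset.eq_of_subset_of_card_le ?_ (by rw [hr, Finset.card_pair hst])).symm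
  intro x hx
  simp only [Finset.mem_insert, Finset.mem_singleton] at hx
  rcases hx with rfl | rfl
  · exact key hp hp'
  · exact key hq hq'

include h1 h2 h3 h4 h5 hNF in
/-- There is no nonempty set of triangles without free edges. -/
theorem no_T (hFE : FE M (Pq hN) (FP hN)) (a b c : V) : ¬ T a b c := by
  classical
  intro habc
  have hA := hN.toActsT
  have hT := hN.tk
  -- a triangle in the right order
  obtain ⟨c₀, p₀, r₀, hT₀, hc₀, hp₀, hr₀⟩ : ∃ c p r, T c p r ∧ τ c = ∅ ∧ (τ p).card = 1 ∧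
      (τ r).card = 2 := by
    obtain ⟨x, y, z, e1, e2, e3, -, e4⟩ := tri_order hT (h1 _ _ _ habc)
    refine ⟨x, y, z, ?_, e1, e2, e3⟩
    rcases e4 with e | e | e | e | e | e <;> obtain ⟨rfl, rfl, rfl⟩ := by simpa using e
    · exact habc
    · exact h2 _ _ _ (h3 _ _ _ habc)
    · exact h3 _ _ _ habc
    · exact h2 _ _ _ habc
    · exact h2 _ _ _ (h2 _ _ _ habc)
    · exact h3 _ _ _ (h2 _ _ _ habc)
  have hfin : (KK hN T).Finite := by
    obtain ⟨S', hS, hS'⟩ := h5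
    have hf1 : (⋃ σ ∈ S', ({(qv σ.1 : QV R V)} : Set (QV R V)) ×ˢ
        ((τ σ.2.2 : Set S) ×ˢ (τ σ.2.2 : Set S))).Finite :=
      hS.biUnion fun σ _ => (Set.finite_singleton _).prod
        ((Finset.finite_toSet _).prod (Finset.finite_toSet _))
    refine Set.Finite.of_finite_image (hf1.subset ?_)
      (f := fun k : {v : QV R V // tq hN.toActsT v = ∅} × S × S => (k.1.1, k.2.1, k.2.2)) ?_
    · rintro _ ⟨⟨c, s, t⟩, ⟨c', p, q, r, e1, e2, e3, e4, e5, e6, e7, e8⟩, rfl⟩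
      obtain ⟨g, hg⟩ := hS' _ _ _ e2
      simp only [Set.mem_iUnion, Set.mem_prod, Set.mem_singleton_iff, Finset.mem_coe]
      have e9 := res_type hN h1 e2 e3 e5 e6 e7 e8
      refine ⟨_, hg, ?_, ?_, ?_⟩
      · rw [qv_smul]
        exact e1.symm
      · rw [hA.inv, e9]
        simp
      · rw [hA.inv, e9]
        simp
    · rintro ⟨⟨c, hc⟩, s, t⟩ _ ⟨⟨c', hc'⟩, s', t'⟩ _ h
      simp only [Prod.mk.injEq] at h
      obtain ⟨rfl, rfl, rfl⟩ := h
      rfl
  have hmk : ∀ {c p q r : V} {s t : S} (hc : τ c = ∅), T c p r → T c q r → τ p = {s} →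
      τ q = {t} → s ≠ t → (τ r).card = 2 →
      ((⟨qv c, hc⟩ : {v : QV R V // tq hN.toActsT v = ∅}), s, t) ∈ KK hN T :=
    fun {c p q r s t} hc a1 a2 a3 a4 a5 a6 => ⟨c, p, q, r, rfl, a1, a2, hc, a3, a4, a5, a6⟩
  have hne : (KK hN T).Nonempty := by
    obtain ⟨q₀, e1, e2, e3⟩ := kite_of hN h1 h2 h3 hNF hT₀ hc₀ hp₀ hr₀
    obtain ⟨s, hs⟩ := card_one_eq hp₀
    obtain ⟨t, ht⟩ := card_one_eq e3
    exact ⟨_, hmk hc₀ hT₀ e1 hs ht (fun h => e2 (by rw [hs, ht, h])) hr₀⟩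
  obtain ⟨⟨cb, hcb⟩, s, t, hK, hK'⟩ := hFE (KK hN T) hfin hne
    (by
      rintro c s t ⟨c', p, q, r, e1, e2, e3, e4, e5, e6, e7, e8⟩
      exact ⟨c', q, p, r, e1, e3, e2, e4, e6, e5, e7.symm, e8⟩)
    (by
      rintro c s t ⟨c', p, q, r, e1, e2, e3, e4, e5, e6, e7, e8⟩
      refine ⟨e7, ?_⟩
      have e9 := res_type hN h1 e2 e3 e5 e6 e7 e8
      exact hT.sph r s (by rw [e9]; simp) t (by rw [e9]; simp))
  obtain ⟨c, p, q, r, e1, e2, e3, e4, e5, e6, e7, e8⟩ := hK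
  simp only at e1 e5 e6 e7
  subst e1
  have e9 := res_type hN h1 e2 e3 e5 e6 e7 e8
  rcases hK' with hK' | ⟨hF, hK'⟩
  · -- the edge from the chamber to the panel
    obtain ⟨d, f1, f2⟩ := hNF _ _ _ e2
    have t1 := h1 _ _ _ f1
    have hd2 : (τ d).card = 2 := by
      have a1 := up_of_ch hT e4 (X.adj_symm _ _ (adj3 t1))
      have b1 := Finset.card_lt_card a1
      have b2 := hT.two d
      have b3 := cn hT (adj2 t1)
      have b4 : (τ p).card = 1 := by rw [e5, Finset.card_singleton]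
      rw [e4, Finset.card_empty] at b1
      omega
    obtain ⟨q', f3, f4, f5⟩ := kite_of hN h1 h2 h3 hNF f1 e4 (by rw [e5, Finset.card_singleton]) hd2
    obtain ⟨u, hu⟩ := card_one_eq f5
    have hsu : s ≠ u := fun h => f4 (by rw [hu, e5, h])
    have f6 := hK' u (hmk e4 f1 f3 e5 hu hsu hd2)
    subst f6
    have f7 := res_type hN h1 f1 f3 e5 hu hsu hd2
    exact f2 (res_un hT e4 (X.adj_symm _ _ (adj3 t1)) (X.adj_symm _ _ (adj3 (h1 _ _ _ e2))) f7 e9)
  · -- the edge from the panel to the residue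
    obtain ⟨d, f1, f2⟩ := hNF p r c (h2 _ _ _ e2)
    have f1' : T d p r := h2 _ _ _ (h2 _ _ _ f1)
    have t1 := h1 _ _ _ f1'
    have b4 : (τ p).card = 1 := by rw [e5, Finset.card_singleton]
    have hd : τ d = ∅ := by
      have b1 := cn hT (X.tri_adj _ _ _ t1)
      have b2 := cn hT (adj3 t1)
      have b3 := hT.two d
      exact Finset.card_eq_zero.1 (by omega)
    obtain ⟨q', f3, f4, f5⟩ := kite_of hN h1 h2 h3 hNF f1' hd b4 e8
    obtain ⟨u, hu⟩ := card_one_eq f5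
    have hsu : s ≠ u := fun h => f4 (by rw [hu, e5, h])
    have f7 := res_type hN h1 f1' f3 e5 hu hsu e8
    have hut : u = t := by
      rw [e9] at f7
      have : u ∈ ({s, t} : Finset S) := by rw [f7]; simp
      simp only [Finset.mem_insert, Finset.mem_singleton] at this
      exact this.resolve_left hsu.symm
    subst hut
    have f8 := hK' ⟨qv d, hd⟩ ⟨qv p, e5, dn_adj hA hT (X.tri_adj _ _ _ (h1 _ _ _ e2)),
      dn_adj hA hT (X.tri_adj _ _ _ t1)⟩ (hmk hd f1' f3 e5 hu hsu e8)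
    have f9 : (qv c : QV R V) = qv d := (congrArg Subtype.val f8).symm
    obtain ⟨g, rfl⟩ := (qv_eq R).1 f9
    have g1 : g • p = p := by
      have a1 := hA.acts.1 g _ _ (X.tri_adj _ _ _ (h1 _ _ _ e2))
      exact pan_un hT hd a1 (X.tri_adj _ _ _ t1) (by rw [hA.inv]; exact e5) e5
    have g2 : g = 1 := by
      by_contra g3
      exact hF ⟨qv p, e5, dn_adj hA hT (X.tri_adj _ _ _ (h1 _ _ _ e2)), FX.mk g3 g1⟩
    rw [g2, one_smul] at f2
    exact f2 rfl

end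

/-- **Free edges.** -/
theorem hasFree (hN : NiceT M X τ N R) (hFE : FE M (Pq hN) (FP hN)) : HasFree X R := by
  intro T h1 h2 h3 h4 h5 h6
  by_contra hcon
  push Not at hcon
  obtain ⟨a, b, c, habc⟩ := h6
  exact no_T hN h1 h2 h3 h4 h5 hcon hFE a b c habc

end

end Pool.Agent.Helper3.TD
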