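import Pool.Agent.Helper3.TD.Quo
import Pool.Agent.Helper3.LT.Quo2

/-!
# Short circuits and fixed panels in quotients of typed complexes
-/

set_option autoImplicit false

namespace Pool.Agent.Helper3.TD

open Relation Pool.Agent.Helper3.FJ Pool.Agent.Helper3.FJ.Cpx Pool.Agent.Helper9.TD
  Pool.Agent.Helper3.LT

section

variable {S V : Type}

/-- The conditions on the action of the group `R`: stabilizers of edges are trivial or equal to the
stabilizers of both ends, and the nontrivial elements of the stabilizers of the residues move the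
vertices of the links which they do not fix by more than `N`. -/
structure NiceT (M : CoxeterMatrix S) (X : Cpx V) (τ : V → Finset S) (N : ℕ) (R : Type) [Group R]
    [MulAction R V] : Prop extends ActsT R X τ where
  tk : TK M X τ
  bd : ∀ s t, 4 * M s t ≤ N
  rigid : ∀ x y, X.adj x y → Cpx.Fx R x y → ∀ r : R, r • x = x → r • y = y
  far : ∀ (v : V) (r : R), r • v = v → (τ v).card = 2 → ∀ n ≤ N, ∀ y : ℕ → V,
    (∀ i < n, X.tri v (y i) (y (i + 1))) → (∀ i ≤ n, ¬ Cpx.Fx R v (y i)) → y n = r • y 0 → r = 1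

variable {M : CoxeterMatrix S} {X : Cpx V} {τ : V → Finset S} {N : ℕ} {R : Type} [Group R]
  [MulAction R V] (hN : NiceT M X τ N R)

/-- The chamber system of the quotient. -/
abbrev Pq (hN : NiceT M X τ N R) := Pn (quoT hN.toActsT hN.tk) (tq hN.toActsT)

/-- Chambers. -/
abbrev Ch (τ : V → Finset S) : Type := {v : V // τ v = ∅}

/-- The action on the chambers. -/
def sm (g : R) (hA : ActsT R X τ) (c : Ch τ) : Ch τ := ⟨g • c.1, by rw [hA.inv]; exact c.2⟩

theorem sm_pn (g : R) (hA : ActsT R X τ) {s : S} {c d : Ch τ} (h : Pn X τ s c d) :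
    Pn X τ s (sm g hA c) (sm g hA d) := by
  obtain ⟨p, h1, h2, h3⟩ := h
  exact ⟨g • p, by rw [hA.inv]; exact h1, hA.acts.1 g _ _ h2, hA.acts.1 g _ _ h3⟩

theorem pn_symm {s : S} {c d : Ch τ} (h : Pn X τ s c d) : Pn X τ s d c := by
  obtain ⟨p, h1, h2, h3⟩ := h
  exact ⟨p, h1, h3, h2⟩

/-- Lifting a gallery. -/
theorem exists_lift_gal {s t : S} {g : ℕ → {v : QV R V // tq hN.toActsT v = ∅}}
    (h : ∀ i, Pq hN (tp s t i) (g i) (g (i + 1))) (c₀ : Ch τ)
    (hc₀ : (qv c₀.1 : QV R V) = (g 0).1) :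
    ∃ c : ℕ → Ch τ, c 0 = c₀ ∧ (∀ i, Pn X τ (tp s t i) (c i) (c (i + 1))) ∧
      ∀ i, (qv (c i).1 : QV R V) = (g i).1 := by
  have hex : ∀ (i : ℕ) (c : {c : Ch τ // (qv c.1 : QV R V) = (g i).1}),
      ∃ d : {d : Ch τ // (qv d.1 : QV R V) = (g (i + 1)).1}, Pn X τ (tp s t i) c.1 d.1 := by
    intro i c
    obtain ⟨d, h1, h2⟩ := lift_pn hN.toActsT hN.tk (h i) c.1 c.2
    exact ⟨⟨d, h2⟩, h1⟩
  choose nx hnx using hex
  let Y : ∀ i : ℕ, {c : Ch τ // (qv c.1 : QV R V) = (g i).1} :=
    fun i => Nat.rec ⟨c₀, hc₀⟩ (fun i c => nx i c) i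
  exact ⟨fun i => (Y i).1, rfl, fun i => hnx i (Y i), fun i => (Y i).2⟩

/-- The residue and the panels of a gallery. -/
theorem exists_res_gal [DecidableEq S] {s t : S} (hst : s ≠ t) (h0 : M s t ≠ 0) {c : ℕ → Ch τ}
    (h : ∀ i, Pn X τ (tp s t i) (c i) (c (i + 1))) (hT : TK M X τ) :
    ∃ (r : V) (p : ℕ → V), τ r = {s, t} ∧ (∀ i, X.adj (c i).1 r) ∧ (∀ i, τ (p i) = {tp s t i}) ∧
      (∀ i, X.adj (c i).1 (p i)) ∧ (∀ i, X.adj (c (i + 1)).1 (p i)) ∧
      (∀ i, X.tri r (c i).1 (p i)) ∧ (∀ i, X.tri r (p i) (c (i + 1)).1) ∧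
      ∀ i, τ (p i) ⊂ τ r := by
  obtain ⟨r, hr, hr2⟩ := exists_res hT (c 0).2 hst h0
  choose p hp1 hp2 hp3 using h
  have hsub : ∀ i, τ (p i) ⊂ τ r := by
    intro i
    rw [hp1, hr2]
    refine Finset.ssubset_iff_subset_ne.2 ⟨?_, ?_⟩
    · rw [Finset.singleton_subset_iff]
      exact tp_mem _ _ _
    · intro h
      have := congrArg Finset.card h
      rw [Finset.card_singleton, Finset.card_pair hst] at this
      exact absurd this (by norm_num)
  have hadj : ∀ i, X.adj (c i).1 r := by
    intro i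
    induction i with
    | zero => exact hr
    | succ i ih => exact res_eq hT (c i).2 (c (i + 1)).2 (hp2 i) (hp3 i) ih (hsub i)
  refine ⟨r, p, hr2, hadj, hp1, hp2, hp3, fun i => ?_, fun i => ?_, hsub⟩
  · have h1 := (flag_tri hT (c i).2 (hp2 i) (hadj i) (hsub i)).1
    exact X.tri_rot _ _ _ (X.tri_rot _ _ _ h1)
  · have h1 := (flag_tri hT (c (i + 1)).2 (hp3 i) (hadj (i + 1)) (hsub i)).1
    exact X.tri_flip _ _ _ (X.tri_rot _ _ _ h1)

include hN in
/-- Closed galleries of the quotient. -/
theorem gir_quo : Gir M (Pq hN) := by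
  classical
  have hA := hN.toActsT
  have hT := hN.tk
  refine gir_of_even (fun s => ?_) ?_
  · -- equivalence
    refine ⟨?_, fun h => pn_symm h, ?_⟩
    · rintro ⟨c, hc⟩
      obtain ⟨c, rfl⟩ := Quotient.exists_rep c
      obtain ⟨p, h1, h2⟩ := exists_pan hT (c := c) hc s
      exact ⟨qv p, h2, dn_adj hA hT h1, dn_adj hA hT h1⟩
    · rintro ⟨c, hc⟩ ⟨d, hd⟩ ⟨e, he⟩ ⟨p, h1, h2, h3⟩ ⟨q, h4, h5, h6⟩
      obtain ⟨d, rfl⟩ := Quotient.exists_rep d
      obtain ⟨p, a1, rfl⟩ := lift_adj hA hT h3
      obtain ⟨q, a2, rfl⟩ := lift_adj hA hT h5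
      have := pan_un hT (c := d) hd a1 a2 h1 h4
      subst this
      exact ⟨qv p, h1, h2, h6⟩
  · intro s t n g hst h0 hn he hg hc
    by_contra hlt
    push Not at hlt
    -- the periodic gallery
    have hnn : 0 < n := hn
    let G : ℕ → {v : QV R V // tq hN.toActsT v = ∅} := fun i => g (i % n)
    have htp : ∀ i, tp s t (i % n) = tp s t i := fun i => tp_even (by
      have h1 := Nat.mod_add_div i n
      have h2 : (n * (i / n)) % 2 = 0 := by rw [Nat.mul_mod, he]; simp
      omega)
    have hG : ∀ i, Pq hN (tp s t i) (G i) (G (i + 1)) ∧ G i ≠ G (i + 1) := by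
      intro i
      have h1 := Nat.mod_lt i hn
      have h2 := hg (i % n) h1
      rw [htp] at h2
      have h3 : G (i + 1) = g (i % n + 1) := by
        change g ((i + 1) % n) = _
        by_cases h4 : i % n + 1 < n
        · rw [Nat.add_mod, Nat.mod_eq_of_lt (a := 1) (by omega), Nat.mod_eq_of_lt h4]
        · have h5 : i % n + 1 = n := by omega
          rw [← Nat.mod_add_mod, h5, Nat.mod_self, hc]
      rw [h3]
      exact h2
    obtain ⟨c₀, hc₀⟩ : ∃ c₀ : V, (qv c₀ : QV R V) = (G 0).1 := Quotient.exists_rep _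
    have hc₀' : τ c₀ = ∅ := by
      rw [← tq_mk hA, hc₀]
      exact (G 0).2
    obtain ⟨b, hb0, hb1, hb2⟩ := exists_lift_gal hN (fun i => (hG i).1) ⟨c₀, hc₀'⟩ hc₀
    -- the element ρ
    obtain ⟨ρ, hρ⟩ : ∃ ρ : R, ρ • (b 0).1 = (b n).1 := by
      refine (qv_eq R).1 ?_
      rw [hb2, hb2]
      change (g (0 % n)).1 = (g (n % n)).1
      rw [Nat.zero_mod, Nat.mod_self]
    -- the periodic lift
    let c : ℕ → Ch τ := fun i => sm (ρ ^ (i / n)) hA (b (i % n))
    have hcn : ∀ i, c (i + n) = sm ρ hA (c i) := by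
      intro i
      refine Subtype.ext ?_
      change ρ ^ ((i + n) / n) • (b ((i + n) % n)).1 = ρ • ρ ^ (i / n) • (b (i % n)).1
      rw [Nat.add_div_right _ hn, Nat.add_mod_right, pow_succ', mul_smul]
    have hc1 : ∀ i, Pn X τ (tp s t i) (c i) (c (i + 1)) := by
      intro i
      have h1 := Nat.mod_lt i hn
      have h2 := sm_pn (ρ ^ (i / n)) hA (hb1 (i % n))
      rw [htp] at h2
      have h3 : c (i + 1) = sm (ρ ^ (i / n)) hA (b (i % n + 1)) := by
        refine Subtype.ext ?_
        change ρ ^ ((i + 1) / n) • (b ((i + 1) % n)).1 = ρ ^ (i / n) • (b (i % n + 1)).1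
        by_cases h4 : i % n + 1 < n
        · have e1 : (i + 1) % n = i % n + 1 := by
            rw [Nat.add_mod, Nat.mod_eq_of_lt (a := 1) (by omega), Nat.mod_eq_of_lt h4]
          have e2 : (i + 1) / n = i / n := by
            have h5 := Nat.div_add_mod i n
            have h6 := Nat.div_add_mod (i + 1) n
            rw [e1] at h6
            have h7 : n * ((i + 1) / n) = n * (i / n) := by omega
            exact Nat.eq_of_mul_eq_mul_left hn h7
          rw [e1, e2]
        · have h5 : i % n + 1 = n := by omega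
          have e1 : (i + 1) % n = 0 := by
            rw [← Nat.mod_add_mod, h5, Nat.mod_self]
          have e2 : (i + 1) / n = i / n + 1 := by
            have h5' := Nat.div_add_mod i n
            have h6 := Nat.div_add_mod (i + 1) n
            rw [e1] at h6
            have h7 : n * ((i + 1) / n) = n * (i / n + 1) := by
              rw [mul_add, mul_one]
              omega
            exact Nat.eq_of_mul_eq_mul_left hn h7
          rw [e1, e2, h5, ← hρ, pow_succ, mul_smul]
      rw [h3]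
      exact h2
    have hc2 : ∀ i, (qv (c i).1 : QV R V) = (G i).1 := by
      intro i
      change (qv (ρ ^ (i / n) • (b (i % n)).1) : QV R V) = _
      rw [qv_smul, hb2]
      change (g (i % n % n)).1 = (g (i % n)).1
      rw [Nat.mod_mod]
    have hne : ∀ i, c i ≠ c (i + 1) := by
      intro i h
      refine (hG i).2 (Subtype.ext ?_)
      rw [← hc2, ← hc2, h]
    obtain ⟨r, p, hr, hcr, hp, hcp, hcp', ht1, ht2, hsub⟩ := exists_res_gal hst h0 hc1 hT
    -- ρ fixes the residue
    have hρr : ρ • r = r := by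
      refine res_un hT (J := {s, t}) (c (0 + n)).2 ?_ (hcr (0 + n)) (by rw [hA.inv]; exact hr) hr
      rw [hcn 0]
      exact hA.acts.1 ρ _ _ (hcr 0)
    by_cases hρ1 : ρ = 1
    · -- the lift is closed
      have h1 := gir_gal hT.gir hst hn (g := c) (fun i _ => ⟨hc1 i, hne i⟩) (by
        have := hcn 0
        rw [zero_add] at this
        rw [this]
        refine Subtype.ext ?_
        change ρ • (c 0).1 = (c 0).1
        rw [hρ1, one_smul])
      omega
    by_cases hfx : ∃ i, Cpx.Fx R r (p i)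
    · -- rotate the gallery
      obtain ⟨i, hi⟩ := hfx
      have h1 : X.adj r (p i) := X.adj_symm _ _ (flag_tri hT (c i).2 (hcp i) (hcr i) (hsub i)).2
      have h2 : ρ • p i = p i := hN.rigid _ _ h1 hi ρ hρr
      have h3 := gir_gal hT.gir (tp_ne hst (i + 1)) hn
        (g := fun j => if j = n then c (i + 1) else c (i + 1 + j)) (fun j hj => ?_) (by
          simp only [if_pos]
          rw [if_neg (show (0 : ℕ) ≠ n by omega), add_zero])
      · rw [tp_mat] at h3
        omega
      · rw [← tp_add]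
        by_cases h4 : j + 1 = n
        · simp only [if_neg (show j ≠ n by omega), if_pos h4]
          have e1 : i + 1 + j = i + n := by omega
          rw [e1, hcn]
          refine ⟨⟨p i, ?_, ?_, hcp' i⟩, fun h5 => ?_⟩
          · rw [hp]
            congr 1
            exact tp_even (by omega)
          · rw [← h2]
            exact hA.acts.1 ρ _ _ (hcp i)
          · refine (hG i).2 (Subtype.ext ?_)
            rw [← hc2, ← hc2, ← h5]
            exact (qv_smul _ _).symm
        · simp only [if_neg (show j ≠ n by omega), if_neg h4]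
          exact ⟨hc1 _, hne _⟩
    · push Not at hfx
      -- no panel is fixed
      refine hρ1 (hN.far r ρ hρr (by rw [hr, Finset.card_pair hst]) (2 * n) ?_
        (fun j => if j % 2 = 0 then (c (j / 2)).1 else p (j / 2)) (fun j _ => ?_)
        (fun j _ => ?_) ?_)
      · have := hN.bd s t
        omega
      · rcases Nat.mod_two_eq_zero_or_one j with h1 | h1
        · simp only [if_pos h1, if_neg (show ¬ (j + 1) % 2 = 0 by omega),
            show (j + 1) / 2 = j / 2 by omega]
          exact ht1 _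
        · simp only [if_neg (show ¬ j % 2 = 0 by omega), if_pos (show (j + 1) % 2 = 0 by omega),
            show (j + 1) / 2 = j / 2 + 1 by omega]
          exact ht2 _
      · split_ifs with h1
        · rintro ⟨γ, h2, h3, h4⟩
          exact h2 (hA.free γ _ (c (j / 2)).2 h4)
        · exact hfx _
      · simp only [show 2 * n % 2 = 0 by omega, show 2 * n / 2 = n by omega, Nat.zero_mod,
          Nat.zero_div, if_true]
        have := hcn 0
        rw [zero_add] at this
        rw [this]
        rfl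

/-- The fixed panels of the quotient. -/
def FP (s : S) (c : {v : QV R V // tq hN.toActsT v = ∅}) : Prop :=
  ∃ p, tq hN.toActsT p = {s} ∧ (quoT hN.toActsT hN.tk).adj c.1 p ∧ FX (V := V) (R := R) p

theorem fixF_quo : FixF M (Pq hN) (FP hN) := by
  classical
  have hA := hN.toActsT
  have hT := hN.tk
  refine ⟨?_, ?_⟩
  · rintro s ⟨c, hc⟩ ⟨d, hd⟩ ⟨p, h1, h2, h3⟩ ⟨q, h4, h5, h6⟩
    obtain ⟨c, rfl⟩ := Quotient.exists_rep c
    obtain ⟨p, a1, rfl⟩ := lift_adj hA hT h2
    obtain ⟨q, a2, rfl⟩ := lift_adj hA hT h5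
    have := pan_un hT (c := c) hc a1 a2 h1 h4
    subst this
    exact ⟨qv p, h1, h3, h6⟩
  · intro s t n c d hst h0 hal hFc hFd
    obtain ⟨g, h1, h2, h3⟩ := al_gal hal
    -- make the gallery infinite by repeating the last chamber
    obtain ⟨c₀, hc₀⟩ : ∃ c₀ : V, (qv c₀ : QV R V) = (g 0).1 := Quotient.exists_rep _
    have hc₀' : τ c₀ = ∅ := by
      rw [← tq_mk hA, hc₀]
      exact (g 0).2
    have hrefl : ∀ (s : S) (e : {v : QV R V // tq hN.toActsT v = ∅}), Pq hN s e e := by
      rintro s ⟨e, he⟩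
      obtain ⟨e, rfl⟩ := Quotient.exists_rep e
      obtain ⟨p, a1, a2⟩ := exists_pan hT (c := e) he s
      exact ⟨qv p, a2, dn_adj hA hT a1, dn_adj hA hT a1⟩
    obtain ⟨b, hb0, hb1, hb2⟩ := exists_lift_gal hN (s := s) (t := t)
      (g := fun i => g (min i n)) (fun i => by
        by_cases hi : i < n
        · rw [min_eq_left (by omega), min_eq_left (by omega)]
          exact (h3 i hi).1
        · rw [min_eq_right (by omega), min_eq_right (by omega)]
          exact hrefl _ _) ⟨c₀, hc₀'⟩ (by rw [Nat.zero_min]; exact hc₀)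
    obtain ⟨r, p, hr, hcr, hp, hcp, hcp', ht1, ht2, hsub⟩ := exists_res_gal hst h0 hb1 hT
    -- the first fixed panel
    obtain ⟨p₀, a1, a2, a3⟩ := hFc
    have e0 : (qv (b 0).1 : QV R V) = c.1 := by
      rw [hb2, Nat.zero_min, h1]
    rw [← e0] at a2
    obtain ⟨p₀, a4, rfl⟩ := lift_adj hA hT a2
    obtain ⟨ρ, hρ1, hρ2⟩ := a3.any rfl
    have hsub0 : τ p₀ ⊂ τ r := by
      have a5 : τ p₀ = {t} := a1
      rw [a5, hr]
      refine Finset.ssubset_iff_subset_ne.2 ⟨by simp, ?_⟩
      intro h
      have := congrArg Finset.card h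
      rw [Finset.card_singleton, Finset.card_pair hst] at this
      exact absurd this (by norm_num)
    have a6 := (flag_tri hT (b 0).2 a4 (hcr 0) hsub0).2
    have hρr := fix_up hT hA a6 hsub0 hρ2
    -- the last fixed panel
    obtain ⟨q, b1, b2, b3⟩ := hFd
    have en : (qv (b n).1 : QV R V) = d.1 := by
      rw [hb2, min_self, h2]
    rw [← en] at b2
    obtain ⟨q, b4, rfl⟩ := lift_adj hA hT b2
    have hq : q = p n := pan_un hT (b n).2 b4 (hcp n) b1 (hp n)
    subst hq
    obtain ⟨ρ', hρ3, hρ4⟩ := b3.any rfl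
    have b5 := (flag_tri hT (b n).2 (hcp n) (hcr n) (hsub n)).2
    have hρr' := fix_up hT hA b5 (hsub n) hρ4
    have hρq : ρ • p n = p n :=
      hN.rigid _ _ (X.adj_symm _ _ b5) ⟨ρ', hρ3, hρr', hρ4⟩ ρ hρr
    have hfree : ∀ e : Ch τ, e ≠ sm ρ hA e := by
      intro e he
      exact hρ1 (hA.free ρ _ e.2 (congrArg Subtype.val he).symm)
    have hbne : ∀ i < n, b i ≠ b (i + 1) := by
      intro i hi h
      refine (h3 i hi).2 (Subtype.ext ?_)
      have e1 := hb2 i
      have e2 := hb2 (i + 1)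
      rw [min_eq_left (by omega)] at e1
      rw [min_eq_left (by omega)] at e2
      rw [← e1, ← e2, h]
    -- the closed gallery
    have h4 := gir_gal hT.gir hst (n := 2 * (n + 1)) (by omega)
      (g := fun j => if j ≤ n then b j else if j ≤ 2 * n + 1 then sm ρ hA (b (2 * n + 1 - j))
        else b 0) (fun j hj => ?_) (by
          beta_reduce
          rw [if_neg (show ¬ 2 * (n + 1) ≤ n by omega),
            if_neg (show ¬ 2 * (n + 1) ≤ 2 * n + 1 by omega), if_pos (Nat.zero_le _)])
    · omega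
    · rcases lt_trichotomy j n with h5 | h5 | h5
      · beta_reduce
        rw [if_pos (show j ≤ n by omega), if_pos (show j + 1 ≤ n by omega)]
        exact ⟨hb1 j, hbne j h5⟩
      · subst h5
        beta_reduce
        rw [if_pos le_rfl, if_neg (show ¬ j + 1 ≤ j by omega),
          if_pos (show j + 1 ≤ 2 * j + 1 by omega), show 2 * j + 1 - (j + 1) = j by omega]
        refine ⟨⟨p j, hp j, hcp j, ?_⟩, hfree _⟩
        rw [← hρq]
        exact hA.acts.1 ρ _ _ (hcp j)
      · beta_reduce
        rw [if_neg (show ¬ j ≤ n by omega), if_pos (show j ≤ 2 * n + 1 by omega),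
          if_neg (show ¬ j + 1 ≤ n by omega)]
        by_cases h6 : j = 2 * n + 1
        · subst h6
          rw [if_neg (by omega), Nat.sub_self]
          refine ⟨⟨p₀, ?_, ?_, a4⟩, fun h => hfree _ h.symm⟩
          · rw [tp_eq, if_neg (by omega)]
            exact a1
          · rw [← hρ2]
            exact hA.acts.1 ρ _ _ a4
        · rw [if_pos (show j + 1 ≤ 2 * n + 1 by omega)]
          obtain ⟨i, hi⟩ : ∃ i, 2 * n + 1 - j = i + 1 := ⟨2 * n - j, by omega⟩
          rw [hi, show 2 * n + 1 - (j + 1) = i by omega]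
          refine ⟨?_, fun h => hbne i (by omega) ?_⟩
          · have h7 := sm_pn ρ hA (hb1 i)
            rw [tp_even (m := j) (n := i) (by omega)]
            exact pn_symm h7
          · have h8 : ρ • (b (i + 1)).1 = ρ • (b i).1 := congrArg Subtype.val h
            exact Subtype.ext (smul_left_cancel ρ h8).symm

end

end Pool.Agent.Helper3.TD
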