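import Pool.Agent.Helper9.TD.Defs

/-!
# Galleries as functions
-/

set_option autoImplicit false

namespace Pool.Agent.Helper3.TD

open Pool.Agent.Helper9.TD

section

variable {S C : Type}

theorem tp_eq (s t : S) (n : ℕ) : tp s t n = if n % 2 = 0 then s else t := by
  induction n generalizing s t with
  | zero => rfl
  | succ n ih =>
    rw [tp, ih]
    rcases Nat.mod_two_eq_zero_or_one n with h | h
    · rw [if_pos h, if_neg (by omega)]
    · rw [if_neg (by omega), if_pos (by omega)]

theorem tp_even {s t : S} {m n : ℕ} (h : m % 2 = n % 2) : tp s t m = tp s t n := by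
  rw [tp_eq, tp_eq, h]

theorem tp_add (s t : S) (m n : ℕ) : tp s t (m + n) = tp (tp s t m) (tp t s m) n := by
  simp only [tp_eq]
  rcases Nat.mod_two_eq_zero_or_one m with h | h <;>
    rcases Nat.mod_two_eq_zero_or_one n with h' | h' <;>
    simp [h, h', Nat.add_mod]

theorem tp_ne {s t : S} (hst : s ≠ t) (n : ℕ) : tp s t n ≠ tp t s n := by
  simp only [tp_eq]
  split_ifs
  · exact hst
  · exact hst.symm

theorem tp_mat (M : CoxeterMatrix S) (s t : S) (n : ℕ) : M (tp s t n) (tp t s n) = M s t := by
  simp only [tp_eq]
  split_ifs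
  · rfl
  · exact M.symmetric _ _

theorem tp_mem [DecidableEq S] (s t : S) (n : ℕ) : tp s t n ∈ ({s, t} : Finset S) := by
  rw [tp_eq]
  split_ifs <;> simp

variable {A : S → C → C → Prop}

/-- Galleries as functions. -/
def Gal (A : S → C → C → Prop) (s t : S) (n : ℕ) (g : ℕ → C) : Prop :=
  ∀ i < n, A (tp s t i) (g i) (g (i + 1)) ∧ g i ≠ g (i + 1)

theorem al_gal {s t : S} {n : ℕ} {c d : C} (h : Al A s t n c d) :
    ∃ g : ℕ → C, g 0 = c ∧ g n = d ∧ Gal A s t n g := by
  induction h with
  | nil s t c => exact ⟨fun _ => c, rfl, rfl, fun i hi => by omega⟩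
  | @cons s t n c d e h1 h2 _ ih =>
    obtain ⟨g, h3, h4, h5⟩ := ih
    refine ⟨fun i => Nat.casesOn i c g, rfl, h4, fun i hi => ?_⟩
    rcases i with _ | i
    · change A s c (g 0) ∧ c ≠ g 0
      rw [h3]
      exact ⟨h1, h2⟩
    · exact h5 i (by omega)

theorem gal_al {s t : S} {n : ℕ} {g : ℕ → C} (h : Gal A s t n g) : Al A s t n (g 0) (g n) := by
  induction n generalizing s t g with
  | zero => exact Al.nil _ _ _
  | succ n ih =>
    refine Al.cons (h 0 (Nat.succ_pos _)).1 (h 0 (Nat.succ_pos _)).2
      (ih (g := fun i => g (i + 1)) fun i hi => ?_)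
    exact h (i + 1) (by omega)

theorem gir_gal {M : CoxeterMatrix S} (hG : Gir M A) {s t : S} (hst : s ≠ t) {n : ℕ} (hn : 0 < n)
    {g : ℕ → C} (h : Gal A s t n g) (hc : g n = g 0) : 2 * M s t ≤ n :=
  hG s t n (g 0) hst hn (by
    have := gal_al h
    rwa [hc] at this)

/-- It is enough to consider galleries of even length. -/
theorem gir_of_even {M : CoxeterMatrix S} (hA : ∀ s, Equivalence (A s))
    (h : ∀ s t n (g : ℕ → C), s ≠ t → M s t ≠ 0 → 0 < n → n % 2 = 0 → Gal A s t n g →
      g n = g 0 → 2 * M s t ≤ n) : Gir M A := by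
  intro s t n
  induction n using Nat.strong_induction_on generalizing s t with
  | _ n ih =>
    intro c hst hn hal
    by_cases h0 : M s t = 0
    · rw [h0]
      exact Nat.zero_le _
    obtain ⟨g, h1, h2, h3⟩ := al_gal hal
    rcases Nat.mod_two_eq_zero_or_one n with he | he
    · exact h s t n g hst h0 hn he h3 (h2.trans h1.symm)
    · by_cases hn1 : n = 1
      · subst hn1
        exact ((h3 0 (by norm_num)).2 (h1.trans h2.symm)).elim
      have hsym : M t s = M s t := M.symmetric _ _
      have a1 : A s (g (n - 1)) (g 1) := by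
        have e1 := (h3 (n - 1) (by omega)).1
        have e2 := (h3 0 hn).1
        rw [tp_eq, if_pos (by omega), Nat.sub_add_cancel (by omega), h2] at e1
        rw [h1] at e2
        exact (hA s).trans e1 e2
      have h4 : Gal A t s (n - 2) fun i => g (i + 1) := fun i hi => h3 (i + 1) (by omega)
      have e1 : n - 2 + 1 = n - 1 := by omega
      by_cases heq : g (n - 1) = g 1
      · have := ih (n - 2) (by omega) t s (g 1) hst.symm (by omega) (by
          have := gal_al h4
          simp only [zero_add, e1] at this
          rwa [heq] at this)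
        omega
      · have := h t s (n - 1) (fun i => if i = n - 1 then g 1 else g (i + 1)) hst.symm
          (by rw [hsym]; exact h0) (by omega) (by omega) (fun i hi => ?_) (by
            simp)
        · rw [hsym] at this
          omega
        · by_cases hi' : i = n - 2
          · subst hi'
            simp only [if_neg (show n - 2 ≠ n - 1 by omega), if_pos (show n - 2 + 1 = n - 1 by omega),
              e1]
            refine ⟨?_, heq⟩
            rw [tp_eq, if_neg (by omega)]
            exact a1
          · simp only [if_neg (show i ≠ n - 1 by omega), if_neg (show i + 1 ≠ n - 1 by omega)]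
            exact h3 (i + 1) (by omega)

end

end Pool.Agent.Helper3.TD
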