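import Pool.Agent.Helper3.TD.Ep
import Pool.Agent.Helper3.FE.FreeEdge
import Pool.Agent.Helper63.TD.Main
import Pool.Agent.Helper63.TD.Sch

/-!
# Groups generated by elements with fixed points
-/

set_option autoImplicit false

namespace Pool.Agent.Helper3.TD

open Relation Pool.Agent.Helper29.BA Pool.Agent.Helper29.PA Pool.Agent.Helper3.FJ
  Pool.Agent.Helper3.FJ.Cpx Pool.Agent.Helper9.TD Pool.Agent.Helper3.LT Pool.Agent.Helper3.FE

section

variable {S V : Type} {M : CoxeterMatrix S} {X : Cpx V} {τ : V → Finset S} {N : ℕ} {R : Type}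
  [Group R] [MulAction R V]

/-- The chamber system of the quotient is simply connected. -/
theorem quo_sch (hN : NiceT M X τ N R) (hX : X.SimplyConn)
    (hR : Subgroup.closure {r : R | ∃ x : V, r • x = x} = ⊤) : SCh M (Pq hN) :=
  Pool.Agent.Helper63.TD.sch (quoT_tk hN.toActsT hN.tk (gir_quo hN))
    (quoT_simplyConn hN.toActsT hN.tk hX hR)

/-- A group generated by elements with fixed vertices is in the class, if the chamber system of the
quotient has a projection to the Coxeter group. -/
theorem gen_memT' (hN : NiceT M X τ N R) (hM : TwoDim M) {w : {v : QV R V // tq hN.toActsT v = ∅} →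
      M.Group} (hw : WL M (Pq hN) w) {C : ∀ (G : Type) [Group G], Prop} (hC : ExtClass C)
    (hX : X.SimplyConn)
    {Q : Type} [Group Q] (f : R →* Q)
    (hQ : C Q) (hf : ∀ (v : V) (r : R), r • v = v → f r = 1 → r = 1) : C R := by
  obtain ⟨lam, ph, hH⟩ := Pool.Agent.Helper63.TD.exists_htF hM
  have hFE : FE M (Pq hN) (FP hN) := free_edge (fun s => pn_eqv
    (quoT_tk hN.toActsT hN.tk (gir_quo hN)) s) (Pool.Agent.Helper63.TD.coxF hM) hH hw (fixF_quo hN)
  exact mem_of_free (k := fun v => (τ v).card) hC hX hN.acts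
    (fun g v => congrArg Finset.card (hN.inv g v)) (fun u v h => cn hN.tk h) (hasFree hN hFE)
    fun K => ⟨Q, _, f, hQ, fun v _ g h1 h2 => hf v g h1 h2⟩

end

end Pool.Agent.Helper3.TD
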