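import Pool.Agent.Helper3.TD.Gen
import Pool.Agent.Helper9.TD.ExW

/-!
# Groups generated by elements with fixed points
-/

set_option autoImplicit false

namespace Pool.Agent.Helper3.TD

open Relation Pool.Agent.Helper29.BA Pool.Agent.Helper29.PA Pool.Agent.Helper3.FJ
  Pool.Agent.Helper3.FJ.Cpx Pool.Agent.Helper9.TD Pool.Agent.Helper3.LT Pool.Agent.Helper3.FE

section

variable {S V : Type} {M : CoxeterMatrix S} {X : Cpx V} {τ : V → Finset S} {N : ℕ} {R : Type}
  [Group R] [MulAction R V]

/-- A group generated by elements with fixed vertices is in the class. -/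
theorem gen_memT (hN : NiceT M X τ N R) (hM : TwoDim M) {C : ∀ (G : Type) [Group G], Prop}
    (hC : ExtClass C) (hX : X.SimplyConn)
    (hR : Subgroup.closure {r : R | ∃ x : V, r • x = x} = ⊤)
    {Q : Type} [Group Q] (f : R →* Q)
    (hQ : C Q) (hf : ∀ (v : V) (r : R), r • v = v → f r = 1 → r = 1) : C R := by
  obtain ⟨w, hw⟩ := exists_w (Pool.Agent.Helper63.TD.coxF hM)
    (fun s => pn_eqv (quoT_tk hN.toActsT hN.tk (gir_quo hN)) s) (gir_quo hN) (quo_sch hN hX hR)
  exact gen_memT' hN hM hw hC hX f hQ hf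

end

end Pool.Agent.Helper3.TD
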