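import Pool.Agent.Helper3.TD.Al
import Pool.Agent.Helper9.TD.Typ
import Pool.Agent.Helper3.FJ.Quo

/-!
# Quotients of typed complexes
-/

set_option autoImplicit false

namespace Pool.Agent.Helper3.TD

open Relation Pool.Agent.Helper3.FJ Pool.Agent.Helper3.FJ.Cpx Pool.Agent.Helper9.TD

section

variable {S V : Type} {M : CoxeterMatrix S} {X : Cpx V} {τ : V → Finset S}

/-! ### Typed complexes -/

section tk

variable (hT : TK M X τ)
include hT

theorem cn {u v : V} (h : X.adj u v) : (τ u).card ≠ (τ v).card := by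
  rcases hT.sub u v h with h | h
  · exact (Finset.card_lt_card h).ne
  · exact (Finset.card_lt_card h).ne'

theorem ne_of {u v : V} (h : X.adj u v) : τ u ≠ τ v := fun h' => cn hT h (congrArg _ h')

theorem up_of_ch {c v : V} (hc : τ c = ∅) (h : X.adj c v) : τ c ⊂ τ v := by
  rw [hc]
  refine Finset.empty_ssubset.2 (Finset.nonempty_iff_ne_empty.2 fun h' => ?_)
  exact ne_of hT h (hc.trans h'.symm)

/-- The panels of a chamber. -/
theorem exists_pan {c : V} (hc : τ c = ∅) (s : S) : ∃ p, X.adj c p ∧ τ p = {s} := by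
  refine hT.up c {s} hc (Finset.singleton_nonempty s) (by simp) ?_
  intro a ha b hb
  rw [Finset.mem_singleton] at ha hb
  subst ha
  subst hb
  rw [M.diagonal]
  exact one_ne_zero

theorem pan_un {c p q : V} {s : S} (hc : τ c = ∅) (h1 : X.adj c p) (h2 : X.adj c q)
    (h3 : τ p = {s}) (h4 : τ q = {s}) : p = q :=
  hT.un c p q h1 h2 (up_of_ch hT hc h1) (h3.trans h4.symm)

theorem res_un {c p q : V} {J : Finset S} (hc : τ c = ∅) (h1 : X.adj c p) (h2 : X.adj c q)
    (h3 : τ p = J) (h4 : τ q = J) : p = q :=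
  hT.un c p q h1 h2 (up_of_ch hT hc h1) (h3.trans h4.symm)

/-- The residues of a chamber. -/
theorem exists_res [DecidableEq S] {c : V} (hc : τ c = ∅) {s t : S} (hst : s ≠ t)
    (h0 : M s t ≠ 0) : ∃ r, X.adj c r ∧ τ r = {s, t} := by
  refine hT.up c {s, t} hc ⟨s, by simp⟩ (by rw [Finset.card_pair hst]) ?_
  have h1 : ∀ a : S, M a a ≠ 0 := fun a => by
    rw [M.diagonal]
    exact one_ne_zero
  have h2 : M t s ≠ 0 := by
    rw [M.symmetric]
    exact h0
  intro a ha b hb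
  simp only [Finset.mem_insert, Finset.mem_singleton] at ha hb
  rcases ha with rfl | rfl <;> rcases hb with rfl | rfl
  · exact h1 _
  · exact h0
  · exact h2
  · exact h1 _

theorem flag_tri {c p r : V} (hc : τ c = ∅) (h1 : X.adj c p) (h2 : X.adj c r) (h3 : τ p ⊂ τ r) :
    X.tri c p r ∧ X.adj p r := by
  have h := hT.flag c p r hc h1 h2 h3
  exact ⟨h, X.tri_adj _ _ _ (X.tri_rot _ _ _ h)⟩

/-- Two chambers on a panel have the same residues above this panel. -/
theorem res_eq {c d p r : V} (hc : τ c = ∅) (hd : τ d = ∅) (h1 : X.adj c p) (h2 : X.adj d p)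
    (h3 : X.adj c r) (h4 : τ p ⊂ τ r) : X.adj d r := by
  obtain ⟨-, h5⟩ := flag_tri hT hc h1 h3 h4
  exact X.adj_symm _ _ (adj3 (hT.tri d p r h2 h5 (up_of_ch hT hd h2) h4))

theorem pn_eqv (s : S) : Equivalence (Pn X τ s) := by
  refine ⟨fun c => ?_, ?_, ?_⟩
  · obtain ⟨p, h1, h2⟩ := exists_pan hT c.2 s
    exact ⟨p, h2, h1, h1⟩
  · rintro c d ⟨p, h1, h2, h3⟩
    exact ⟨p, h1, h3, h2⟩
  · rintro c d e ⟨p, h1, h2, h3⟩ ⟨q, h4, h5, h6⟩
    have := pan_un hT d.2 h3 h5 h1 h4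
    subst this
    exact ⟨p, h1, h2, h6⟩

end tk

/-! ### Actions -/

variable {R : Type} [Group R] [MulAction R V]

/-- Elements which fix a vertex fix the adjacent vertices of larger type. -/
theorem fix_up (hT : TK M X τ) (hA : ActsT R X τ) {x y : V} (h : X.adj x y) (hk : τ x ⊂ τ y)
    {r : R} (hr : r • x = x) : r • y = y := by
  refine hT.un x _ _ ?_ h ?_ (hA.inv r y)
  · have := hA.acts.1 r _ _ h
    rwa [hr] at this
  · rw [hA.inv]
    exact hk

/-- The types of the quotient. -/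
def tq (hA : ActsT R X τ) : QV R V → Finset S :=
  Quotient.lift (s := vS R V) τ (by
    rintro x y ⟨g, rfl⟩
    exact (hA.inv g x).symm)

theorem tq_mk (hA : ActsT R X τ) (x : V) : tq hA (qv x) = τ x := rfl

theorem t_eq (hA : ActsT R X τ) {x y : V} (h : (qv x : QV R V) = qv y) : τ x = τ y := by
  rw [← tq_mk hA, h, tq_mk]

theorem qv_smul (g : R) (x : V) : (qv (g • x) : QV R V) = qv x := ((qv_eq R).2 ⟨g, rfl⟩).symm

/-- The quotient. -/
def quoT (hA : ActsT R X τ) (hT : TK M X τ) : Cpx (QV R V) where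
  adj u v := ∃ x y, X.adj x y ∧ qv x = u ∧ qv y = v
  tri u v w := ∃ x y z, X.tri x y z ∧ qv x = u ∧ qv y = v ∧ qv z = w
  adj_symm := by
    rintro u v ⟨x, y, h, h1, h2⟩
    exact ⟨y, x, X.adj_symm _ _ h, h2, h1⟩
  adj_irrefl := by
    rintro u ⟨x, y, h, h1, h2⟩
    exact ne_of hT h (t_eq hA (h1.trans h2.symm))
  tri_rot := by
    rintro u v w ⟨x, y, z, h, h1, h2, h3⟩
    exact ⟨y, z, x, X.tri_rot _ _ _ h, h2, h3, h1⟩
  tri_flip := by
    rintro u v w ⟨x, y, z, h, h1, h2, h3⟩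
    exact ⟨y, x, z, X.tri_flip _ _ _ h, h2, h1, h3⟩
  tri_adj := by
    rintro u v w ⟨x, y, z, h, h1, h2, h3⟩
    exact ⟨x, y, X.tri_adj _ _ _ h, h1, h2⟩

/-- The quotient is simply connected. -/
theorem quoT_simplyConn (hA : ActsT R X τ) (hT : TK M X τ)
    (hX : X.SimplyConn) (hR : Subgroup.closure {r : R | ∃ x : V, r • x = x} = ⊤) :
    (quoT hA hT).SimplyConn := by
  obtain ⟨⟨v₀⟩, hconn, hsc⟩ := hX
  refine ⟨⟨qv v₀⟩, ?_, ?_⟩
  · intro u v
    obtain ⟨x, rfl⟩ := Quotient.exists_rep u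
    obtain ⟨y, rfl⟩ := Quotient.exists_rep v
    have := hconn x y
    induction this with
    | refl => exact ReflTransGen.refl
    | tail _ h4 ih => exact ih.tail ⟨_, _, h4, rfl, rfl⟩
  · intro H _ c hc
    let c' : V → V → H := fun x y => c (qv x) (qv y)
    have hcoc : X.Cocycle c' := ⟨fun u v h => hc.1 _ _ ⟨u, v, h, rfl, rfl⟩,
      fun u v w h => hc.2 _ _ _ ⟨u, v, w, h, rfl, rfl, rfl⟩⟩
    obtain ⟨g, hg⟩ := hsc H c' hcoc
    have inv : ∀ (r : R) (x y : V), g (r • x) * (g x)⁻¹ = g (r • y) * (g y)⁻¹ := by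
      intro r x y
      have := hconn x y
      induction this with
      | refl => rfl
      | @tail b e _ h4 ih =>
        rw [ih]
        have e1 := hg _ _ h4
        have e2 := hg _ _ (hA.acts.1 r _ _ h4)
        simp only [c', qv_smul] at e1 e2
        rw [e1] at e2
        have e3 : g e = g b * ((g b)⁻¹ * g e) := by group
        rw [e3, e2]
        group
    let S : Subgroup R :=
      { carrier := {r | ∀ x, g (r • x) = g x}
        one_mem' := fun x => by rw [one_smul]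
        mul_mem' := fun {a b} ha hb x => by rw [mul_smul, ha, hb]
        inv_mem' := fun {a} ha x => by
          have := ha (a⁻¹ • x)
          rwa [smul_inv_smul, eq_comm] at this }
    have hS : S = ⊤ := by
      rw [eq_top_iff, ← hR, Subgroup.closure_le]
      rintro r ⟨x, hx⟩ y
      have := inv r x y
      rw [hx, mul_inv_cancel, eq_comm, mul_inv_eq_one] at this
      exact this
    let g' : QV R V → H := Quotient.lift (s := vS R V) g (by
      rintro x y ⟨r, rfl⟩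
      have : r ∈ S := by rw [hS]; trivial
      exact (this x).symm)
    refine ⟨g', ?_⟩
    rintro u v ⟨x, y, h, rfl, rfl⟩
    exact hg _ _ h

section lifts

variable (hA : ActsT R X τ) (hT : TK M X τ)

theorem dn_adj {x y : V} (h : X.adj x y) : (quoT hA hT).adj (qv x) (qv y) := ⟨x, y, h, rfl, rfl⟩

theorem dn_tri {x y z : V} (h : X.tri x y z) : (quoT hA hT).tri (qv x) (qv y) (qv z) :=
  ⟨x, y, z, h, rfl, rfl, rfl⟩

/-- Lifting an adjacent vertex. -/
theorem lift_adj {x : V} {v : QV R V} (h : (quoT hA hT).adj (qv x) v) :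
    ∃ y, X.adj x y ∧ qv y = v := by
  obtain ⟨x', y', h1, h2, h3⟩ := h
  obtain ⟨g, hg⟩ := (qv_eq R).1 h2
  refine ⟨g • y', ?_, ?_⟩
  · rw [← hg]
    exact hA.acts.1 g _ _ h1
  · rw [← h3]
    exact qv_smul _ _

include hA hT in
/-- Adjacent vertices of larger type in one orbit are equal. -/
theorem typ_eq {x y z : V} (h1 : X.adj x y) (h2 : X.adj x z) (h3 : τ x ⊂ τ y)
    (h4 : (qv y : QV R V) = qv z) : y = z :=
  hT.un x y z h1 h2 h3 (t_eq hA h4)

/-- Lifting a chamber in a panel. -/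
theorem lift_pn {s : S} {c d : {v : QV R V // tq hA v = ∅}} (h : Pn (quoT hA hT) (tq hA) s c d)
    (c' : {v : V // τ v = ∅}) (hc : (qv c'.1 : QV R V) = c.1) :
    ∃ d' : {v : V // τ v = ∅}, Pn X τ s c' d' ∧ (qv d'.1 : QV R V) = d.1 := by
  obtain ⟨p, h1, h2, h3⟩ := h
  rw [← hc] at h2
  obtain ⟨p', h4, rfl⟩ := lift_adj hA hT h2
  obtain ⟨d', h5, h6⟩ := lift_adj hA hT ((quoT hA hT).adj_symm _ _ h3)
  refine ⟨⟨d', ?_⟩, ⟨p', h1, h4, X.adj_symm _ _ h5⟩, h6⟩
  rw [← tq_mk hA, h6]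
  exact d.2

/-- The quotient is a typed complex, if its residues have no short circuits. -/
theorem quoT_tk (hG : Gir M (Pn (quoT hA hT) (tq hA))) : TK M (quoT hA hT) (tq hA) := by
  refine ⟨?_, ?_, ?_, ?_, ?_, ?_, ?_, ?_, hG⟩
  · intro v
    obtain ⟨v, rfl⟩ := Quotient.exists_rep v
    exact hT.two v
  · intro v
    obtain ⟨v, rfl⟩ := Quotient.exists_rep v
    exact hT.sph v
  · rintro u v ⟨x, y, h, rfl, rfl⟩
    exact hT.sub x y h
  · intro v
    obtain ⟨v, rfl⟩ := Quotient.exists_rep v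
    intro hv
    obtain ⟨c, h1, h2⟩ := hT.ch v hv
    exact ⟨qv c, h1, dn_adj hA hT h2⟩
  · intro c
    obtain ⟨c, rfl⟩ := Quotient.exists_rep c
    intro J h1 h2 h3 h4
    obtain ⟨v, h5, h6⟩ := hT.up c J h1 h2 h3 h4
    exact ⟨qv v, dn_adj hA hT h5, h6⟩
  · intro u v v' h1 h2 h3 h4
    obtain ⟨u, rfl⟩ := Quotient.exists_rep u
    obtain ⟨y, h5, rfl⟩ := lift_adj hA hT h1
    obtain ⟨y', h6, rfl⟩ := lift_adj hA hT h2
    rw [hT.un u y y' h5 h6 h3 h4]
  · intro u v w h1 h2 h3 h4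
    obtain ⟨v, rfl⟩ := Quotient.exists_rep v
    obtain ⟨x, h5, rfl⟩ := lift_adj hA hT ((quoT hA hT).adj_symm _ _ h1)
    obtain ⟨z, h6, rfl⟩ := lift_adj hA hT h2
    exact dn_tri hA hT (hT.tri x v z (X.adj_symm _ _ h5) h6 h3 h4)
  · intro c p r h1 h2 h3 h4
    obtain ⟨c, rfl⟩ := Quotient.exists_rep c
    obtain ⟨p, h5, rfl⟩ := lift_adj hA hT h2
    obtain ⟨r, h6, rfl⟩ := lift_adj hA hT h3
    exact dn_tri hA hT (hT.flag c p r h1 h5 h6 h4)

end lifts

end

end Pool.Agent.Helper3.TD
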